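import Pool.Agent.R591.BRT.Claim

/-!
# MP_91fb13_lc, Q1: rigid uniformly `κ`-branching branchwise-real trees for all `κ > 𝔠⁺`

We prove in ZFC that for every cardinal `κ > 𝔠⁺` there is a branchwise-real tree that is uniformly
`κ`-branching and rigid (and it admits a strictly increasing map into `ℝ`).
-/

open Set Cardinal

universe u

namespace Pool.Agent.Results.MP_91fb13_lc.RigidTree

/-- A *tree order*: the elements below any element are linearly ordered. -/
def IsTreeOrder (X : Type u) [PartialOrder X] : Prop :=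
  ∀ x : X, IsChain (· ≤ ·) {y : X | y ≤ x}

/-- A *branchwise-real tree*: a tree order in which every branch (maximal chain) is
order-isomorphic to an interval (an order-connected subset) of `ℝ` and any two elements have a
meet. -/
def IsBranchwiseReal (X : Type u) [PartialOrder X] : Prop :=
  IsTreeOrder X ∧
  (∀ C : Set X, IsMaxChain (· ≤ ·) C → ∃ I : Set ℝ, I.OrdConnected ∧ Nonempty (C ≃o I)) ∧
  (∀ x y : X, ∃ m, IsGLB {x, y} m)

/-- The component above `x` that contains `y`. -/
def comp {X : Type u} [PartialOrder X] (x y : X) : Set X :=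
  {z | x < z ∧ ∃ w, x < w ∧ w ≤ y ∧ w ≤ z}

/-- The *degree* of `x`: the number of components above `x`. -/
def degree {X : Type u} [PartialOrder X] (x : X) : Cardinal.{u} :=
  #{C : Set X // ∃ y, x < y ∧ C = comp x y}

/-- *Uniformly `κ`-branching*: every node has degree exactly `κ`. -/
def UniformlyBranching (X : Type u) [PartialOrder X] (κ : Cardinal.{u}) : Prop :=
  ∀ x : X, degree x = κ

/-- *Rigid*: the only order-automorphism is the identity. -/
def Rigid (X : Type u) [PartialOrder X] : Prop :=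
  ∀ π : X ≃o X, π = OrderIso.refl X

open Pool.Agent.R591.BRT

section

variable {A : Type u} [LinearOrder A] {o : A} {S : LadSys A o}

/-- the root -/
def root (S : LadSys A o) : Node S where
  r := 0
  f := fun _ => o
  r_nonneg := le_rfl
  supp := fun t ht => absurd rfl ht
  rz := fun s => ⟨s + 1, by linarith, fun _ _ _ => rfl⟩
  rule := by
    intro s hs
    obtain ⟨y, _, _, h⟩ := hs (s - 1) (by linarith)
    exact absurd rfl h

theorem isTreeOrder : IsTreeOrder (Node S) := by
  intro x y hy z hz _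
  rcases le_total y.r z.r with h | h
  · exact Or.inl (Node.le_of_le_of_le hy hz h)
  · exact Or.inr (Node.le_of_le_of_le hz hy h)

theorem exists_meet (x y : Node S) : ∃ m, IsGLB {x, y} m := by
  let T : Set ℝ := {s | 0 ≤ s ∧ s ≤ x.r ∧ s ≤ y.r ∧ ∀ t < s, x.f t = y.f t}
  have h0 : (0 : ℝ) ∈ T := by
    refine ⟨le_rfl, x.r_nonneg, y.r_nonneg, fun t ht => ?_⟩
    have h1 : x.f t = o := by
      by_contra h; exact absurd (x.supp t h).1 (not_le.2 ht)
    have h2 : y.f t = o := by
      by_contra h; exact absurd (y.supp t h).1 (not_le.2 ht)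
    rw [h1, h2]
  have hb : BddAbove T := ⟨x.r, fun s hs => hs.2.1⟩
  have hs0 : 0 ≤ sSup T := le_csSup hb h0
  have hsx : sSup T ≤ x.r := csSup_le ⟨0, h0⟩ (fun s hs => hs.2.1)
  have hsy : sSup T ≤ y.r := csSup_le ⟨0, h0⟩ (fun s hs => hs.2.2.1)
  have hag : ∀ t < sSup T, x.f t = y.f t := by
    intro t ht
    obtain ⟨s, hs, hts⟩ := exists_lt_of_lt_csSup ⟨0, h0⟩ ht
    exact hs.2.2.2 t hts
  refine ⟨x.res (sSup T) hs0, ?_, ?_⟩
  · rintro z (rfl | rfl)
    · exact z.res_le hs0 hsx
    · refine ⟨hsy, fun t ht => ?_⟩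
      have ht' : t < sSup T := ht
      simp only [Node.res, ht', if_true]
      exact hag t ht'
  · intro w hw
    have hwx : w ≤ x := hw (by simp)
    have hwy : w ≤ y := hw (by simp)
    apply Node.le_of_le_of_le hwx (x.res_le hs0 hsx)
    exact le_csSup hb ⟨w.r_nonneg, hwx.1, hwy.1, fun t ht =>
      (hwx.2 t ht).symm.trans (hwy.2 t ht)⟩

theorem branch_real (C : Set (Node S)) (hC : IsMaxChain (· ≤ ·) C) :
    ∃ I : Set ℝ, I.OrdConnected ∧ Nonempty (C ≃o I) := by
  classical
  have hcmp : ∀ x ∈ C, ∀ y ∈ C, x ≤ y ∨ y ≤ x := by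
    intro x hx y hy
    exact hC.1.total hx hy
  have hle : ∀ x ∈ C, ∀ y ∈ C, (x.r ≤ y.r ↔ x ≤ y) := by
    intro x hx y hy
    constructor
    · intro h
      rcases hcmp x hx y hy with h1 | h1
      · exact h1
      · exact (Node.eq_of_le_of_r h1 h).ge
    · exact fun h => h.1
  refine ⟨Node.r '' C, ⟨?_⟩, ⟨?_⟩⟩
  · rintro _ ⟨x, hx, rfl⟩ _ ⟨y, hy, rfl⟩ s ⟨hs1, hs2⟩
    have hs0 : 0 ≤ s := x.r_nonneg.trans hs1
    have hyC : y.res s hs0 ∈ C := by
      have hins : IsChain (· ≤ ·) (insert (y.res s hs0) C) := by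
        apply hC.1.insert
        intro w hw _
        have h1 := y.res_le hs0 hs2
        rcases hcmp w hw y hy with h | h
        · rcases le_total w.r s with h2 | h2
          · exact Or.inr (Node.le_of_le_of_le h h1 h2)
          · exact Or.inl (Node.le_of_le_of_le h1 h h2)
        · exact Or.inl (h1.trans h)
      have := hC.2 hins (subset_insert _ _)
      rw [this]; exact mem_insert _ _
    exact ⟨_, hyC, rfl⟩
  · let e : C ≃ (Node.r '' C : Set ℝ) := Equiv.ofBijective
      (fun x => ⟨x.1.r, ⟨x.1, x.2, rfl⟩⟩) (by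
      constructor
      · intro x y hxy
        have h : x.1.r = y.1.r := congrArg Subtype.val hxy
        exact Subtype.ext (le_antisymm ((hle _ x.2 _ y.2).1 h.le) ((hle _ y.2 _ x.2).1 h.ge))
      · rintro ⟨_, ⟨x, hx, rfl⟩⟩
        exact ⟨⟨x, hx⟩, rfl⟩)
    exact ⟨e, fun {x y} => hle _ x.2 _ y.2⟩

theorem comp_eq_iff {x y y' : Node S} (h : x < y) (h' : x < y') :
    comp x y = comp x y' ↔ y.f x.r = y'.f x.r := by
  constructor
  · intro heq
    have h1 : y' ∈ comp x y := by
      rw [heq]; exact ⟨h', y', h', le_rfl, le_rfl⟩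
    obtain ⟨_, w, hw1, hw2, hw3⟩ := h1
    exact (sameComp h h').1 ⟨w, hw1, hw2, hw3⟩
  · intro heq
    ext z
    constructor
    · rintro ⟨hz, w, hw⟩
      have := (sameComp h hz).1 ⟨w, hw⟩
      exact ⟨hz, (sameComp h' hz).2 (heq ▸ this)⟩
    · rintro ⟨hz, w, hw⟩
      have := (sameComp h' hz).1 ⟨w, hw⟩
      exact ⟨hz, (sameComp h hz).2 (heq ▸ this)⟩

theorem degree_eq (x : Node S) : degree x = #A := by
  symm
  apply Cardinal.mk_congr
  refine Equiv.ofBijective (fun c => ⟨comp x (x.ext' c 1 one_pos), _, Node.lt_ext' _ _ _ _, rfl⟩) ?_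
  constructor
  · intro c c' h
    have h1 : comp x (x.ext' c 1 one_pos) = comp x (x.ext' c' 1 one_pos) := congrArg Subtype.val h
    have := (comp_eq_iff (Node.lt_ext' _ _ _ _) (Node.lt_ext' _ _ _ _)).1 h1
    simpa using this
  · rintro ⟨C, y, hy, rfl⟩
    refine ⟨y.f x.r, Subtype.ext ?_⟩
    exact (comp_eq_iff (Node.lt_ext' _ _ _ _) hy).2 (by simp)

variable [WellFoundedLT A]

theorem preserve (hA : ∀ a : A, #(Iio a) < #A) (hcA : 𝔠 < #A)
    (π : Node S ≃o Node S) (z : Node S) (α' : A) (r' : ℝ) (a' : A)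
    (h : LSw o (Function.update z.f z.r α') r' a') :
    LSw o (Function.update (π z).f (π z).r (sig π z α')) r' a' := by
  by_cases hcls : ∀ r'' a'', LSw o (Function.update (π z).f (π z).r (sig π z α')) r'' a'' →
      cls a'' ≤ cls a'
  · exact claim hA hcA π z α' r' a' h hcls
  · push Not at hcls
    obtain ⟨r'', a'', h', hlt⟩ := hcls
    exfalso
    have h1 := claim hA hcA π.symm (π z) (sig π z α') r'' a'' h' (by
      rw [sig_symm, π.symm_apply_apply]
      intro r₁ a₁ h₁
      rw [(h₁.unique h).2]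
      exact hlt.le)
    rw [sig_symm, π.symm_apply_apply] at h1
    rw [(h1.unique h).2] at hlt
    exact lt_irrefl _ hlt

theorem r_le (hA : ∀ a : A, #(Iio a) < #A) (hcA : 𝔠 < #A) {c : A} (hc : c ≠ o)
    (π : Node S ≃o Node S) (z : Node S) : z.r ≤ (π z).r := by
  have h : LSw o (Function.update z.f z.r c) z.r c := by
    refine ⟨hc, by simp, fun t ht => ?_⟩
    rw [Function.update_of_ne ht.ne', z.f_eq_o ht.le]
  have h1 := preserve hA hcA π z c z.r c h
  by_contra hcon
  rw [not_le] at hcon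
  have h2 := h1.2.1
  rw [Function.update_of_ne hcon.ne', (π z).f_eq_o hcon.le] at h2
  exact hc h2.symm

theorem r_eq (hA : ∀ a : A, #(Iio a) < #A) (hcA : 𝔠 < #A) {c : A} (hc : c ≠ o)
    (π : Node S ≃o Node S) (z : Node S) : (π z).r = z.r := by
  apply le_antisymm _ (r_le hA hcA hc π z)
  have := r_le hA hcA hc π.symm (π z)
  rwa [π.symm_apply_apply] at this

theorem sig_eq (hA : ∀ a : A, #(Iio a) < #A) (hcA : 𝔠 < #A)
    (π : Node S ≃o Node S) (z : Node S) {c : A} (hc : c ≠ o) : sig π z c = c := by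
  have h : LSw o (Function.update z.f z.r c) z.r c := by
    refine ⟨hc, by simp, fun t ht => ?_⟩
    rw [Function.update_of_ne ht.ne', z.f_eq_o ht.le]
  have h1 := (preserve hA hcA π z c z.r c h).2.1
  rw [← r_eq hA hcA hc π z] at h1
  simpa using h1

theorem f_of_ne (hA : ∀ a : A, #(Iio a) < #A) (hcA : 𝔠 < #A)
    (π : Node S ≃o Node S) (x : Node S) {s : ℝ} (hs : x.f s ≠ o) : (π x).f s = x.f s := by
  obtain ⟨hs0, hsr⟩ := x.supp s hs
  set z := x.res s hs0 with hz
  have hzx : z < x := by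
    apply Node.lt_of_le_of_r (x.res_le hs0 hsr.le)
    exact hsr
  have h1 := sig_spec π hzx
  have h2 : z.r = s := rfl
  rw [r_eq hA hcA hs π z, h2, sig_eq hA hcA π z hs] at h1
  exact h1

theorem rigid (hA : ∀ a : A, #(Iio a) < #A) (hcA : 𝔠 < #A) : Rigid (Node S) := by
  intro π
  have hne : ∃ c : A, c ≠ o := by
    by_contra hcon
    push Not at hcon
    have : Subsingleton A := ⟨fun a b => (hcon a).trans (hcon b).symm⟩
    have h1 : #A ≤ 1 := Cardinal.le_one_iff_subsingleton.2 this
    exact absurd (hcA.trans_le h1) (not_lt.2 (Cardinal.one_lt_aleph0.le.trans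
      Cardinal.aleph0_le_continuum))
  obtain ⟨c, hc⟩ := hne
  apply OrderIso.ext
  funext x
  show π x = x
  apply Node.ext (r_eq hA hcA hc π x)
  funext s
  by_cases hs : x.f s = o
  · by_cases hs' : (π x).f s = o
    · rw [hs, hs']
    · have := f_of_ne hA hcA π.symm (π x) hs'
      rw [π.symm_apply_apply] at this
      exact this.symm
  · exact f_of_ne hA hcA π x hs

end

/-- For every cardinal `κ > 𝔠⁺` there is a branchwise-real tree that is uniformly `κ`-branching
and rigid; moreover it admits a strictly increasing map into `ℝ`. -/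
theorem result : ∀ κ : Cardinal.{u}, Order.succ 𝔠 < κ →
    ∃ (X : Type u) (_ : PartialOrder X), IsBranchwiseReal X ∧ UniformlyBranching X κ ∧ Rigid X ∧
      Nonempty X ∧ ∃ g : X → ℝ, StrictMono g := by
  intro κ hκ
  have hcκ : 𝔠 < κ := (Order.lt_succ _).trans hκ
  let A : Type u := κ.ord.ToType
  have hAκ : #A = κ := Cardinal.mk_ord_toType κ
  have hA : ∀ a : A, #(Iio a) < #A := fun a => Cardinal.mk_Iio_lt a (by
    rw [hAκ]
    exact (Ordinal.type_toType κ.ord).symm)
  have hcA : 𝔠 < #A := hAκ.symm ▸ hcκ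
  have hneA : Nonempty A := by
    rw [← Cardinal.mk_ne_zero_iff]
    exact (lt_of_le_of_lt zero_le hcA).ne'
  let o : A := WellFounded.min (wellFounded_lt (α := A)) Set.univ Set.univ_nonempty
  have ho : ∀ a : A, o ≤ a := fun a =>
    not_lt.1 (WellFounded.not_lt_min (wellFounded_lt (α := A)) Set.univ (mem_univ a))
  obtain ⟨S⟩ := exists_ladSys hA hcA o ho
  refine ⟨Node S, inferInstance, ⟨isTreeOrder, branch_real, exists_meet⟩, ?_, rigid hA hcA,
    ⟨root S⟩, Node.r, Node.strictMono_r⟩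
  intro x
  rw [degree_eq, hAκ]

end Pool.Agent.Results.MP_91fb13_lc.RigidTree
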